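import Mathlib
import Pool.Agent.H.MP_189914_nt.I

namespace Pool.Agent.H.MP_4856b2_nt
open Finset

lemma chi_ineq (b : ℕ → ℕ) (hm : StrictMono b) (h0 : 0 < b 0)
    (hs : ∀ (k : ℕ) (s : Finset ℕ), (∀ i ∈ s, i < k) → 2 ≤ s.card → ∑ i ∈ s, b i ≠ b k)
    (i j : ℕ) : (j + 1 + 1) * (i + 1) ≤ b i + (j + 1 + 1) * b j := by
  have pos : ∀ t, 0 < b t := fun t => h0.trans_le (hm.monotone (Nat.zero_le t))
  have gap : ∀ t d, b t + d ≤ b (t + d) := by
    intro t d
    induction d with
    | zero => rfl
    | succ d ih => have := hm (show t + d < t + (d + 1) by omega); omega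
  have key : ∀ r t k l, r < t → t ≤ l → b k + ∑ x ∈ range r, b x ≠ b l + ∑ x ∈ range t, b x := by
    intro r t k l h1 h2 e
    rw [← sum_range_add_sum_Ico _ h1.le] at e
    have nm : l ∉ Ico r t := by simp; omega
    have e2 : ∑ x ∈ insert l (Ico r t), b x = b k := by rw [sum_insert nm]; omega
    have c2 : 2 ≤ (insert l (Ico r t)).card := by rw [card_insert_of_notMem nm, Nat.card_Ico]; omega
    refine hs k _ (fun x hx => hm.lt_iff_lt.1 ?_) c2 e2
    rw [← e2]
    obtain ⟨y, hy, hxy⟩ := exists_mem_ne (show 1 < (insert l (Ico r t)).card by omega) x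
    exact single_lt_sum hxy hx hy (pos y) fun _ _ _ => Nat.zero_le _
  have h1 : ((range (j + 2)).sigma fun r => Ico r (i + 1)).card ≤
      (Icc 1 (b i + ∑ x ∈ range (j + 1), b x)).card := by
    refine card_le_card_of_injOn (fun p => b p.2 + ∑ x ∈ range p.1, b x) ?_ ?_
    · rintro ⟨r, k⟩ hp
      simp only [coe_sigma, Set.mem_sigma_iff, mem_coe, mem_range, mem_Ico, mem_Icc] at hp ⊢
      have := pos k
      have := hm.monotone (show k ≤ i by omega)
      have := sum_le_sum_of_subset (f := b) (range_subset_range.2 (show r ≤ j + 1 by omega))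
      omega
    · rintro ⟨r, k⟩ hp ⟨t, l⟩ hq e
      simp only [coe_sigma, Set.mem_sigma_iff, mem_coe, mem_range, mem_Ico] at hp hq e
      rcases lt_trichotomy r t with h | rfl | h
      · exact absurd e (key r t k l h hq.2.1)
      · rw [hm.injective (Nat.add_right_cancel e)]
      · exact absurd e.symm (key t r l k h hp.2.1)
  rw [card_sigma, Nat.card_Icc] at h1
  simp only [Nat.card_Ico] at h1
  have h2 : (j + 2) * (i + 1) ≤ ∑ r ∈ range (j + 2), (i + 1 - r) + ∑ r ∈ range (j + 2), r := by
    rw [← sum_add_distrib]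
    have := card_nsmul_le_sum (range (j + 2)) (fun r => i + 1 - r + r) (i + 1) fun r _ => by omega
    simpa using this
  have h3 : ∑ x ∈ range (j + 1), b x + ∑ r ∈ range (j + 1), r ≤ (j + 1) * b j := by
    rw [← sum_range_reflect (fun r => r), ← sum_add_distrib]
    have := sum_le_card_nsmul (range (j + 1)) (fun x => b x + (j + 1 - 1 - x)) (b j) fun x hx => by
      have := gap x (j - x)
      rw [mem_range] at hx
      rw [show x + (j - x) = j by omega] at this
      simpa using this
    simpa using this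
  have h4 := gap 0 j
  rw [zero_add] at h4
  rw [sum_range_succ (fun r => r)] at h2
  have e : (j + 1 + 1) * b j = (j + 1) * b j + b j := by ring
  rw [e]
  change (j + 2) * (i + 1) ≤ _
  omega

end Pool.Agent.H.MP_4856b2_nt
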